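import Pool.Agent.Y766.R3.DB
import Pool.Agent.Y766.R3.Stm

/-!
Statements for project R10: a positive proportion of the values `L(1/2 + it, χθ)`, `θ` mod `p^m`,
`χ` primitive mod `p^ν`, `m / ν > 19 / 58`, is nonzero.
-/

set_option autoImplicit false

namespace Pool.Agent.Y766.R10

open Finset
open Pool.Agent.Y766 (Good)
open Pool.Agent.Y766.R3 (eu FF FH)

/-- KEY: the mean square over `l` of sums of Fourier coefficients of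
`x ↦ χ(c_l + E x + p^m l) conj χ(c_l + E x)` -/
def S_KEY : Prop := ∀ δ : ℝ, 0 < δ → ∃ C : ℝ, 0 < C ∧ ∀ p : ℕ, p.Prime → 7 ≤ p →
  ∀ (ν m u s κ Yn : ℕ) [NeZero (p ^ (ν - m))], 1 ≤ m → m < ν → ν ≤ u + 3 * m →
    2 * u + 1 ≤ ν - m → 2 ≤ ν - m → 1 ≤ s → 4 * s + 1 ≤ κ → u ≤ κ - 4 * s →
    ν - m ≤ 7 * (κ - 4 * s) → 3 * κ ≤ ν - m + 3 * s → 1 ≤ Yn →
    p ^ (ν - m + 7 * s - 3 * κ + 4 * s) ≤ Yn * p ^ κ →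
  ∀ χ : DirichletCharacter ℂ (p ^ ν), χ.IsPrimitive → ∀ E : ℤ, ¬ (p : ℤ) ∣ E →
  ∀ (c : ℤ → ℤ) (h : ℤ) (b : ℝ),
    ∑ l ∈ (Ico (1 : ℤ) (1 + Yn)).filter (fun l => ¬ (p : ℤ) ∣ l),
      ‖∑ k ∈ range (p ^ κ), FH (p ^ (ν - m)) (fun x => FF χ ((p : ℤ) ^ m * l) (c l + E * x)) (h + k) *
        eu (b * k)‖ ^ 2 ≤
      (C * (p : ℝ) ^ 7) * Yn * ((p : ℝ) ^ κ) ^ 2 * ((p : ℝ) ^ (ν - m) / (p : ℝ) ^ s) *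
        ((p : ℝ) ^ ν) ^ (2 * δ)

/-- OFF: the off-diagonal terms for two smooth weights, with a power saved -/
def S_OFF : Prop := ∀ δ : ℝ, 0 < δ → ∃ η : ℝ, 0 < η ∧ ∀ p : ℕ, p.Prime → 7 ≤ p →
  ∃ (C : ℝ) (ν₀ : ℕ), 0 < C ∧ ∀ (ν m : ℕ), ν₀ ≤ ν → 1 ≤ m → m < ν → (19 / 58 + δ) * ν ≤ m →
  ∀ χ : DirichletCharacter ℂ (p ^ ν), χ.IsPrimitive →
  ∀ (E : ℕ) (c : ℤ → ℤ), 1 ≤ E → ¬ p ∣ E → (∀ l, 0 ≤ c l ∧ c l < E) →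
  ∀ (g1 g2 : ℝ → ℂ) (B1 B2 : ℝ), Good B1 g1 → Good B2 g2 →
  (∀ x, x ∉ Set.Icc (6 / 5 : ℝ) 3 → g2 x = 0) →
  ∀ N1 N2 : ℝ, 0 < N1 → 5 * E ≤ N2 → N2 ≤ 4 * N1 → N1 ≤ ((p : ℝ) ^ ν) ^ (1 / 2 + η) →
  ∀ S ⊆ (Ico (1 : ℤ) (1 + (⌊4 * N1⌋₊ / p ^ m : ℕ))).filter (fun l => ¬ (p : ℤ) ∣ l),
    ∑ l ∈ S, ‖∑ x ∈ Icc 1 ⌊4 * (N2 / E)⌋₊, FF χ ((p : ℤ) ^ m * l) (c l + E * x) *
      (g1 (((c l + E * x + (p : ℤ) ^ m * l : ℤ) : ℝ) / N1) *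
        (starRingEnd ℂ) (g2 (((c l + E * x : ℤ) : ℝ) / N2)))‖ ≤
      C * (B1 * B2) * N1 * ((p : ℝ) ^ ν) ^ (-η)

/-- smooth weights in the variable `log n / log q` -/
structure WG (B : ℝ) (G : ℝ → ℂ) : Prop where
  smooth : ContDiff ℝ ((⊤ : ℕ∞) : WithTop ℕ∞) G
  b0 : ∀ v, ‖G v‖ ≤ B
  b1 : ∀ v, ‖deriv G v‖ ≤ B
  b2 : ∀ v, ‖deriv (deriv G) v‖ ≤ B

/-- the weight `n^{-1/2-it} G((log n - log l) / log q)` -/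
noncomputable def ww (q : ℝ) (t : ℝ) (G : ℝ → ℂ) (l n : ℕ) : ℂ :=
  (n : ℂ) ^ (-(1 / 2 + (t : ℂ) * Complex.I)) * G ((Real.log n - Real.log l) / Real.log q)

/-- OFM: the off-diagonal terms with divisibility conditions, `p ∤ h` -/
def S_OFM : Prop := ∀ δ : ℝ, 0 < δ → ∃ κ₁ η : ℝ, 0 < κ₁ ∧ 0 < η ∧ 10 * κ₁ ≤ η ∧
  ∀ κ : ℝ, 0 < κ → κ ≤ κ₁ → ∀ t : ℝ, ∀ p : ℕ, p.Prime → 7 ≤ p →
  ∃ (C : ℝ) (ν₀ : ℕ), 0 < C ∧ ∀ (ν m : ℕ), ν₀ ≤ ν → 1 ≤ m → m < ν → (19 / 58 + δ) * ν ≤ m →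
  ∀ χ : DirichletCharacter ℂ (p ^ ν), χ.IsPrimitive → ∀ (B : ℝ) (G : ℝ → ℂ), WG B G →
  ∀ a : ℝ, a ≤ 1 / 2 + κ → (∀ v, v ∉ Set.Icc a (a + κ) → G v = 0) →
  ∀ l1 l2 : ℕ, 1 ≤ l1 → 1 ≤ l2 → (l1 : ℝ) ≤ ((p : ℝ) ^ ν) ^ κ → (l2 : ℝ) ≤ ((p : ℝ) ^ ν) ^ κ →
  ¬ p ∣ l1 → ¬ p ∣ l2 → ∀ M : ℕ, M + 1 = p ^ ν →
    ∑ h ∈ (Icc 1 (M / p ^ m)).filter (fun h => ¬ p ∣ h),
      ‖∑ n ∈ (Icc 1 M).filter (fun n => l2 ∣ n ∧ l1 ∣ n + p ^ m * h),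
        FF χ ((p : ℤ) ^ m * (h : ℤ)) (n : ℤ) * (ww ((p : ℝ) ^ ν) t G l1 (n + p ^ m * h) *
          (starRingEnd ℂ) (ww ((p : ℝ) ^ ν) t G l2 n))‖ ≤
      C * B ^ 2 * ((p : ℝ) ^ ν) ^ (-η)

/-- OFL: the same for all `h` -/
def S_OFL : Prop := ∀ δ : ℝ, 0 < δ → ∃ κ₁ η : ℝ, 0 < κ₁ ∧ 0 < η ∧ 5 * κ₁ ≤ η ∧
  ∀ κ : ℝ, 0 < κ → κ ≤ κ₁ → ∀ t : ℝ, ∀ p : ℕ, p.Prime → 7 ≤ p →
  ∃ (C : ℝ) (ν₀ : ℕ), 0 < C ∧ ∀ (ν m : ℕ), ν₀ ≤ ν → 1 ≤ m → m < ν → (19 / 58 + δ) * ν ≤ m →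
  ∀ χ : DirichletCharacter ℂ (p ^ ν), χ.IsPrimitive → ∀ (B : ℝ) (G : ℝ → ℂ), WG B G →
  ∀ a : ℝ, a ≤ 1 / 2 + κ → (∀ v, v ∉ Set.Icc a (a + κ) → G v = 0) →
  ∀ l1 l2 : ℕ, 1 ≤ l1 → 1 ≤ l2 → (l1 : ℝ) ≤ ((p : ℝ) ^ ν) ^ κ → (l2 : ℝ) ≤ ((p : ℝ) ^ ν) ^ κ →
  ¬ p ∣ l1 → ¬ p ∣ l2 → ∀ M : ℕ, M + 1 = p ^ ν →
    ∑ h ∈ Icc 1 (M / p ^ m),
      ‖∑ n ∈ (Icc 1 M).filter (fun n => l2 ∣ n ∧ l1 ∣ n + p ^ m * h),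
        FF χ ((p : ℤ) ^ m * (h : ℤ)) (n : ℤ) * (ww ((p : ℝ) ^ ν) t G l1 (n + p ^ m * h) *
          (starRingEnd ℂ) (ww ((p : ℝ) ^ ν) t G l2 n))‖ ≤
      C * B ^ 2 * ((p : ℝ) ^ ν) ^ (-η)

/-- MOB: logarithmic averages of the Moebius function with a coprimality condition -/
def S_MOB : Prop := ∃ C : ℝ, 0 < C ∧ ∀ g : ℕ, 1 ≤ g → ∀ t : ℝ, 1 ≤ t →
  |∑ j ∈ (Icc 1 ⌊t⌋₊).filter (fun j => Nat.Coprime j g),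
    (ArithmeticFunction.moebius j : ℝ) / j * Real.log (t / j)| ≤ C * (g / Nat.totient g)

/-- SEL: Selberg's weights -/
def S_SEL : Prop := ∃ C : ℝ, 0 < C ∧ ∀ z : ℝ, 1 ≤ z → ∀ K : ℕ, z ≤ K →
  ∑ k ∈ Icc 1 K, (∑ l ∈ k.divisors.filter (fun l : ℕ => (l : ℝ) ≤ z),
    (ArithmeticFunction.moebius l : ℝ) * Real.log (z / l)) ^ 2 / k ≤
    C * (1 + Real.log z) * (1 + Real.log K)

/-- the coefficients of the mollifier of length `q^κ` -/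
noncomputable def mw (q κ : ℝ) (l : ℕ) : ℝ :=
  if (l : ℝ) ≤ q ^ κ then
    (ArithmeticFunction.moebius l : ℝ) * (1 - Real.log l / (κ * Real.log q)) else 0

/-- DIAG: the diagonal terms -/
def S_DIAG : Prop := ∃ C : ℝ, 0 < C ∧ ∀ κ : ℝ, 0 < κ → κ ≤ 1 → ∀ (B : ℝ) (G : ℝ → ℂ), WG B G →
  ∀ q : ℝ, 0 < q → 1 ≤ κ * Real.log q → ∀ K : ℕ, (K : ℝ) ≤ q ^ 2 →
  ∑ k ∈ Icc 1 K, ‖∑ l ∈ k.divisors, (mw q κ l : ℂ) *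
    G ((Real.log k - Real.log l) / Real.log q)‖ ^ 2 / k ≤ C * B ^ 2 / κ

/-- the mollifier -/
noncomputable def MM {q : ℕ} (χ : DirichletCharacter ℂ q) (κ t : ℝ) : ℂ :=
  ∑ l ∈ Icc 1 ⌊(q : ℝ) ^ κ⌋₊, (mw q κ l : ℂ) *
    (χ (l : ZMod q) * (l : ℂ) ^ (-(1 / 2 + (t : ℂ) * Complex.I)))

/-- smooth partial sums -/
noncomputable def AA {q : ℕ} (χ : DirichletCharacter ℂ q) (G : ℝ → ℂ) (t : ℝ) : ℂ :=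
  ∑ n ∈ Icc 1 q, G (Real.log n / Real.log q) *
    (χ (n : ZMod q) * (n : ℂ) ^ (-(1 / 2 + (t : ℂ) * Complex.I)))

/-- MSQ: the mollified mean square over a coset, short ranges of `n` -/
def S_MSQ : Prop := ∀ δ : ℝ, 0 < δ → ∃ κ₁ : ℝ, 0 < κ₁ ∧ κ₁ ≤ 1 / 100 ∧ ∀ κ : ℝ, 0 < κ → κ ≤ κ₁ →
  ∀ t : ℝ, ∃ C : ℝ, 0 < C ∧ ∀ (p : ℕ) [Fact p.Prime], 7 ≤ p → ∃ ν₀ : ℕ,
  ∀ (ν m : ℕ) (hmν : m < ν), ν₀ ≤ ν → (19 / 58 + δ) * ν ≤ m →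
  ∀ χ : DirichletCharacter ℂ (p ^ ν), χ.IsPrimitive → ∀ (B : ℝ) (G : ℝ → ℂ), WG B G →
  ∀ a : ℝ, a ≤ 1 / 2 + κ → (∀ v, v ∉ Set.Icc a (a + κ) → G v = 0) →
    ∑ θ : DirichletCharacter ℂ (p ^ m),
      ‖AA (χ * DirichletCharacter.changeLevel (pow_dvd_pow p hmν.le) θ) G t *
        MM (χ * DirichletCharacter.changeLevel (pow_dvd_pow p hmν.le) θ) κ t‖ ^ 2 ≤
      C * B ^ 2 * (p : ℝ) ^ m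

/-- MSA: the mollified mean square over a coset -/
def S_MSA : Prop := ∀ δ : ℝ, 0 < δ → ∃ κ₁ : ℝ, 0 < κ₁ ∧ κ₁ ≤ 1 / 100 ∧ ∀ κ : ℝ, 0 < κ → κ ≤ κ₁ →
  ∀ t : ℝ, ∃ C : ℝ, 0 < C ∧ ∀ (p : ℕ) [Fact p.Prime], 7 ≤ p → ∃ ν₀ : ℕ,
  ∀ (ν m : ℕ) (hmν : m < ν), ν₀ ≤ ν → (19 / 58 + δ) * ν ≤ m →
  ∀ χ : DirichletCharacter ℂ (p ^ ν), χ.IsPrimitive → ∀ (B : ℝ) (G : ℝ → ℂ), WG B G →
  (∀ v, 1 / 2 + κ ≤ v → G v = 0) →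
    ∑ θ : DirichletCharacter ℂ (p ^ m),
      ‖AA (χ * DirichletCharacter.changeLevel (pow_dvd_pow p hmν.le) θ) G t *
        MM (χ * DirichletCharacter.changeLevel (pow_dvd_pow p hmν.le) θ) κ t‖ ^ 2 ≤
      C * B ^ 2 * (p : ℝ) ^ m

/-- THE: the functional equation of the theta function of an even primitive character -/
def S_THE : Prop := ∀ (q : ℕ) [NeZero q], 1 < q → ∀ χ : DirichletCharacter ℂ q, χ.IsPrimitive →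
  χ.Even → ∀ x : ℝ, 0 < x →
  ∑' n : ℕ, χ ((n + 1 : ℕ) : ZMod q) * (Real.exp (-Real.pi * ((n : ℝ) + 1) ^ 2 / (x * q)) : ℂ) =
    gaussSum χ ZMod.stdAddChar / (Real.sqrt q : ℂ) * (Real.sqrt x : ℂ) *
    ∑' n : ℕ, (starRingEnd ℂ) (χ ((n + 1 : ℕ) : ZMod q)) *
      (Real.exp (-Real.pi * ((n : ℝ) + 1) ^ 2 * x / q) : ℂ)

/-- the normalised incomplete gamma function -/
noncomputable def QG (a : ℂ) (x : ℝ) : ℂ :=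
  (∫ u in Set.Ioi x, (u : ℂ) ^ (a - 1) * (Real.exp (-u) : ℂ)) / Complex.Gamma a

/-- AFE: the approximate functional equation of `L(1/2 + it, χ)`, `χ` even and primitive -/
def S_AFE : Prop := ∀ (q : ℕ) [NeZero q], 1 < q → ∀ t : ℝ, ∃ γ : ℂ, ‖γ‖ = 1 ∧
  ∀ χ : DirichletCharacter ℂ q, χ.IsPrimitive → χ.Even → ∀ Y : ℝ, 0 < Y →
  χ.LFunction (1 / 2 + (t : ℂ) * Complex.I) =
    ∑' n : ℕ, χ ((n + 1 : ℕ) : ZMod q) * ((n + 1 : ℕ) : ℂ) ^ (-(1 / 2 + (t : ℂ) * Complex.I)) *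
      QG ((1 / 2 + (t : ℂ) * Complex.I) / 2) (Real.pi * ((n : ℝ) + 1) ^ 2 * Y / q) +
    γ * (gaussSum χ ZMod.stdAddChar / (Real.sqrt q : ℂ)) * (starRingEnd ℂ)
    (∑' n : ℕ, χ ((n + 1 : ℕ) : ZMod q) * ((n + 1 : ℕ) : ℂ) ^ (-(1 / 2 + (t : ℂ) * Complex.I)) *
      QG ((1 / 2 + (t : ℂ) * Complex.I) / 2) (Real.pi * ((n : ℝ) + 1) ^ 2 / (Y * q)))

/-- AFW: the approximate functional equation with a smooth weight in `log n / log q` -/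
def S_AFW : Prop := ∀ t ρ : ℝ, 0 < ρ → ρ ≤ 1 / 100 → ∃ C q₀ : ℝ, 0 < C ∧
  ∀ (q : ℕ) [NeZero q], q₀ ≤ q → ∃ (G : ℝ → ℂ) (γ : ℂ), WG C G ∧ ‖γ‖ = 1 ∧
    (∀ v, 1 / 2 + 3 * ρ ≤ v → G v = 0) ∧ ‖G 0 - 1‖ ≤ 1 / 4 ∧
    ∀ χ : DirichletCharacter ℂ q, χ.IsPrimitive → χ.Even →
      ‖χ.LFunction (1 / 2 + (t : ℂ) * Complex.I) - (AA χ G t +
        γ * (gaussSum χ ZMod.stdAddChar / (Real.sqrt q : ℂ)) * (starRingEnd ℂ) (AA χ G t))‖ ≤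
      1 / q

open Classical in
/-- FMO: the mollified first moment over the even characters of a coset -/
def S_FMO : Prop := ∀ δ κ t C : ℝ, 0 < δ → 0 < κ → 10 * κ ≤ δ → κ ≤ 1 / 100 → 0 < C →
  ∀ (p : ℕ) [Fact p.Prime], 3 ≤ p → ∃ ν₀ : ℕ, ∀ (ν m : ℕ) (hmν : m < ν), ν₀ ≤ ν →
  (1 / 4 + δ) * ν ≤ m → 2 * m ≤ ν → ∀ χ : DirichletCharacter ℂ (p ^ ν), χ.IsPrimitive →
  ∀ G : ℝ → ℂ, WG C G → (∀ v, 1 / 2 + κ ≤ v → G v = 0) → ‖G 0 - 1‖ ≤ 1 / 4 → ∀ γ : ℂ, ‖γ‖ = 1 →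
  (p : ℝ) ^ m / 8 ≤ ‖∑ θ ∈ (univ : Finset (DirichletCharacter ℂ (p ^ m))).filter
      (fun θ => (χ * DirichletCharacter.changeLevel (pow_dvd_pow p hmν.le) θ).Even),
    (AA (χ * DirichletCharacter.changeLevel (pow_dvd_pow p hmν.le) θ) G t +
      γ * (gaussSum (χ * DirichletCharacter.changeLevel (pow_dvd_pow p hmν.le) θ) ZMod.stdAddChar /
        (Real.sqrt ((p : ℝ) ^ ν) : ℂ)) *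
      (starRingEnd ℂ) (AA (χ * DirichletCharacter.changeLevel (pow_dvd_pow p hmν.le) θ) G t)) *
      MM (χ * DirichletCharacter.changeLevel (pow_dvd_pow p hmν.le) θ) κ t‖

open Classical in
/-- POS: the main theorem -/
def S_POS : Prop := ∀ δ t : ℝ, 0 < δ → ∃ c : ℝ, 0 < c ∧ ∀ (p : ℕ) [Fact p.Prime], 7 ≤ p →
  ∃ ν₀ : ℕ, ∀ (ν m : ℕ) (hmν : m < ν), ν₀ ≤ ν → (19 / 58 + δ) * ν ≤ m →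
  ∀ χ : DirichletCharacter ℂ (p ^ ν), χ.IsPrimitive →
  c * (p : ℝ) ^ m ≤ ((univ : Finset (DirichletCharacter ℂ (p ^ m))).filter (fun θ =>
    (χ * DirichletCharacter.changeLevel (pow_dvd_pow p hmν.le) θ).LFunction
      (1 / 2 + (t : ℂ) * Complex.I) ≠ 0)).card

end Pool.Agent.Y766.R10
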