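import Pool.Agent.Y766.R10.Stm
import Pool.Agent.Y766.R3.TE
import Pool.Agent.Helper112.MultLS

/-!
A positive proportion of the values `L(1/2 + it, χθ)` is nonzero: the final steps.
-/

set_option autoImplicit false

namespace Pool.Agent.Y766.R10

open Finset
open Pool.Agent.Y766.R3 (prim_mul)

lemma cs_count {ι : Type} (s : Finset ι) (P : ι → Prop) [DecidablePred P] (L M : ι → ℂ)
    (hP : ∀ i ∈ s, ¬ P i → L i = 0) {a S : ℝ} (ha0 : 0 ≤ a) (ha : a ≤ ‖∑ i ∈ s, L i * M i‖)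
    (hS : ∑ i ∈ s, ‖L i * M i‖ ^ 2 ≤ S) : a ^ 2 ≤ ((s.filter P).card : ℝ) * S := by
  have h1 : ∑ i ∈ s, L i * M i = ∑ i ∈ s.filter P, L i * M i := by
    rw [sum_filter]
    refine sum_congr rfl fun i hi => ?_
    split_ifs with h
    · rfl
    · rw [hP i hi h, zero_mul]
  have h2 : ‖∑ i ∈ s.filter P, L i * M i‖ ^ 2 ≤ ((s.filter P).card : ℝ) * ∑ i ∈ s.filter P, ‖L i * M i‖ ^ 2 := by
    refine le_trans (pow_le_pow_left₀ (norm_nonneg _) (norm_sum_le _ _) 2) ?_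
    exact sq_sum_le_card_mul_sum_sq
  have h3 : ∑ i ∈ s.filter P, ‖L i * M i‖ ^ 2 ≤ S :=
    (sum_le_sum_of_subset_of_nonneg (filter_subset _ _) fun _ _ _ => by positivity).trans hS
  calc a ^ 2 ≤ ‖∑ i ∈ s, L i * M i‖ ^ 2 := pow_le_pow_left₀ ha0 ha 2
    _ ≤ ((s.filter P).card : ℝ) * ∑ i ∈ s.filter P, ‖L i * M i‖ ^ 2 := by rw [h1]; exact h2
    _ ≤ _ := mul_le_mul_of_nonneg_left h3 (Nat.cast_nonneg _)

lemma mw_le {q κ : ℝ} (hq : 1 < q) (hκ : 0 < κ) {l : ℕ} (hl : 1 ≤ l) : |mw q κ l| ≤ 1 := by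
  unfold mw
  split_ifs with h
  · have hlog : 0 < κ * Real.log q := mul_pos hκ (Real.log_pos hq)
    have hl0 : (0 : ℝ) < l := by exact_mod_cast hl
    have h1 : Real.log l ≤ κ * Real.log q := by
      rw [← Real.log_rpow (by linarith)]
      exact Real.log_le_log hl0 h
    have h2 : 0 ≤ Real.log l := Real.log_natCast_nonneg l
    have h3 : |(ArithmeticFunction.moebius l : ℝ)| ≤ 1 := by
      have := ArithmeticFunction.abs_moebius_le_one (n := l)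
      exact_mod_cast this
    have h4 : |1 - Real.log l / (κ * Real.log q)| ≤ 1 := by
      rw [abs_le]
      have h5 : Real.log l / (κ * Real.log q) ≤ 1 := (div_le_one hlog).2 h1
      have h6 : 0 ≤ Real.log l / (κ * Real.log q) := by positivity
      constructor <;> linarith
    rw [abs_mul]
    exact mul_le_one₀ h3 (abs_nonneg _) h4
  · simp

lemma MM_le {q : ℕ} (hq : 1 < q) (χ : DirichletCharacter ℂ q) {κ : ℝ} (hκ : 0 < κ) (t : ℝ) :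
    ‖MM χ κ t‖ ≤ (q : ℝ) ^ κ := by
  have hq' : (1 : ℝ) < q := by exact_mod_cast hq
  unfold MM
  calc _ ≤ ∑ l ∈ Icc 1 ⌊(q : ℝ) ^ κ⌋₊, ‖(mw q κ l : ℂ) *
        (χ (l : ZMod q) * (l : ℂ) ^ (-(1 / 2 + (t : ℂ) * Complex.I)))‖ := norm_sum_le _ _
    _ ≤ ∑ l ∈ Icc 1 ⌊(q : ℝ) ^ κ⌋₊, (1 : ℝ) := by
        refine sum_le_sum fun l hl => ?_
        rw [mem_Icc] at hl
        have hl1 : (1 : ℝ) ≤ l := by exact_mod_cast hl.1
        rw [norm_mul, norm_mul, Complex.norm_real, Real.norm_eq_abs,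
          Complex.norm_natCast_cpow_of_pos (by omega)]
        have h1 := mw_le hq' hκ hl.1
        have h2 : ‖χ (l : ZMod q)‖ ≤ 1 := χ.norm_le_one _
        have h3 : (l : ℝ) ^ (-(1 / 2 + (t : ℂ) * Complex.I)).re ≤ 1 := by
          apply Real.rpow_le_one_of_one_le_of_nonpos hl1
          simp
        have h4 : (0 : ℝ) ≤ (l : ℝ) ^ (-(1 / 2 + (t : ℂ) * Complex.I)).re := by positivity
        exact mul_le_one₀ h1 (by positivity) (mul_le_one₀ h2 h4 h3)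
    _ = (⌊(q : ℝ) ^ κ⌋₊ : ℝ) := by
        rw [sum_const, Nat.card_Icc, Nat.add_sub_cancel, nsmul_eq_mul, mul_one]
    _ ≤ _ := Nat.floor_le (by positivity)

lemma card_char {p : ℕ} [Fact p.Prime] (m : ℕ) :
    (Fintype.card (DirichletCharacter ℂ (p ^ m)) : ℝ) ≤ (p : ℝ) ^ m := by
  haveI : NeZero (p ^ m) := ⟨pow_ne_zero _ (Fact.out : p.Prime).ne_zero⟩
  have e1 := DirichletCharacter.card_eq_totient_of_hasEnoughRootsOfUnity ℂ (p ^ m)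
  rw [← Nat.card_eq_fintype_card, e1]
  calc ((p ^ m).totient : ℝ) ≤ ((p ^ m : ℕ) : ℝ) := by exact_mod_cast Nat.totient_le _
    _ = _ := by push_cast; rfl

open Classical in
theorem pos_half (h1 : S_MSA) (h2 : S_AFW) (h3 : S_FMO) : ∀ δ t : ℝ, 0 < δ → ∃ c : ℝ, 0 < c ∧
    ∀ (p : ℕ) [Fact p.Prime], 7 ≤ p → ∃ ν₀ : ℕ, ∀ (ν m : ℕ) (hmν : m < ν), ν₀ ≤ ν →
    (19 / 58 + δ) * ν ≤ m → 2 * m ≤ ν →
    ∀ χ : DirichletCharacter ℂ (p ^ ν), χ.IsPrimitive →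
    c * (p : ℝ) ^ m ≤ ((univ : Finset (DirichletCharacter ℂ (p ^ m))).filter (fun θ =>
      (χ * DirichletCharacter.changeLevel (pow_dvd_pow p hmν.le) θ).LFunction
        (1 / 2 + (t : ℂ) * Complex.I) ≠ 0)).card := by
  intro δ t hδ
  obtain ⟨κ₁, hκ₁, hκ₁', hms⟩ := h1 δ hδ
  obtain ⟨κ, hκd⟩ : ∃ κ : ℝ, κ = min κ₁ (δ / 10) := ⟨_, rfl⟩
  have hκ0 : 0 < κ := by rw [hκd]; positivity
  have hκ1 : κ ≤ κ₁ := by rw [hκd]; exact min_le_left _ _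
  have hκδ : 10 * κ ≤ δ := by
    have : κ ≤ δ / 10 := by rw [hκd]; exact min_le_right _ _
    linarith
  obtain ⟨C1, hC1, hms⟩ := hms κ hκ0 hκ1 t
  obtain ⟨C2, q₀, hC2, haf⟩ := h2 t (κ / 3) (by positivity) (by linarith)
  obtain ⟨S, hS⟩ : ∃ S : ℝ, S = 8 * C1 * C2 ^ 2 + 2 := ⟨_, rfl⟩
  have hS0 : 0 < S := by rw [hS]; positivity
  refine ⟨1 / (256 * S), by positivity, ?_⟩
  intro p hpf hp7
  have hp : p.Prime := hpf.out
  have hp0 : (0 : ℝ) < p := by exact_mod_cast hp.pos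
  obtain ⟨ν₁, hms⟩ := hms p hp7
  obtain ⟨ν₂, hfm⟩ := h3 δ κ t C2 hδ hκ0 hκδ (by linarith) hC2 p (by omega)
  refine ⟨max (max ν₁ ν₂) (max ⌈q₀⌉₊ 8), ?_⟩
  intro ν m hmν hν h19 h2m χ hχ
  have hν1 : ν₁ ≤ ν := le_trans (le_trans (le_max_left _ _) (le_max_left _ _)) hν
  have hν2 : ν₂ ≤ ν := le_trans (le_trans (le_max_right _ _) (le_max_left _ _)) hν
  have hν3 : ⌈q₀⌉₊ ≤ ν := le_trans (le_trans (le_max_left _ _) (le_max_right _ _)) hν
  have hν4 : 8 ≤ ν := le_trans (le_trans (le_max_right _ _) (le_max_right _ _)) hν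
  haveI : NeZero p := ⟨hp.ne_zero⟩
  haveI : NeZero (p ^ m) := ⟨pow_ne_zero _ hp.ne_zero⟩
  haveI : NeZero (p ^ ν) := ⟨pow_ne_zero _ hp.ne_zero⟩
  have hqν : 2 ^ ν ≤ p ^ ν := Nat.pow_le_pow_left hp.two_le ν
  have hq256 : 256 ≤ p ^ ν := by
    calc 256 = 2 ^ 8 := by norm_num
      _ ≤ 2 ^ ν := Nat.pow_le_pow_right (by norm_num) hν4
      _ ≤ _ := hqν
  have hq1 : 1 < p ^ ν := by omega
  have hqq : q₀ ≤ ((p ^ ν : ℕ) : ℝ) := by
    calc q₀ ≤ (⌈q₀⌉₊ : ℝ) := Nat.le_ceil _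
      _ ≤ (ν : ℝ) := by exact_mod_cast hν3
      _ ≤ ((2 ^ ν : ℕ) : ℝ) := by exact_mod_cast (Nat.lt_two_pow_self).le
      _ ≤ _ := by exact_mod_cast hqν
  obtain ⟨G, γ, hG, hγ, hG0, hG1, hL⟩ := haf (p ^ ν) hqq
  obtain ⟨ψ, hψ⟩ : ∃ ψ : DirichletCharacter ℂ (p ^ m) → DirichletCharacter ℂ (p ^ ν), ψ = fun θ =>
    χ * DirichletCharacter.changeLevel (pow_dvd_pow p hmν.le) θ := ⟨_, rfl⟩
  have hψθ : ∀ θ, χ * DirichletCharacter.changeLevel (pow_dvd_pow p hmν.le) θ = ψ θ := fun θ => by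
    rw [hψ]
  have hprim : ∀ θ, (ψ θ).IsPrimitive := fun θ => by
    rw [hψ]; exact prim_mul hp hmν hχ θ
  have hGκ : ∀ v, 1 / 2 + κ ≤ v → G v = 0 := fun v hv => hG0 v (by linarith)
  have hm2 := hms ν m hmν hν1 h19 χ hχ C2 G hG hGκ
  have hf2 := hfm ν m hmν hν2 (by
    have : (0 : ℝ) ≤ ν := Nat.cast_nonneg _
    nlinarith) h2m χ hχ G hG hGκ hG1 γ hγ
  simp only [hψθ] at hm2 hf2 ⊢
  obtain ⟨q, hq⟩ : ∃ q : ℝ, q = ((p ^ ν : ℕ) : ℝ) := ⟨_, rfl⟩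
  have hqr : q = (p : ℝ) ^ ν := by rw [hq]; push_cast; rfl
  have hq256' : (256 : ℝ) ≤ q := by rw [hq]; exact_mod_cast hq256
  have hq0 : 0 < q := by linarith
  rw [← hqr] at hf2
  rw [← hq] at hL
  -- notation
  obtain ⟨Ls, hLs⟩ : ∃ Ls : DirichletCharacter ℂ (p ^ m) → ℂ, Ls = fun θ =>
    (ψ θ).LFunction (1 / 2 + (t : ℂ) * Complex.I) := ⟨_, rfl⟩
  obtain ⟨As, hAs⟩ : ∃ As : DirichletCharacter ℂ (p ^ m) → ℂ, As = fun θ => AA (ψ θ) G t := ⟨_, rfl⟩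
  obtain ⟨Ms, hMs⟩ : ∃ Ms : DirichletCharacter ℂ (p ^ m) → ℂ, Ms = fun θ => MM (ψ θ) κ t := ⟨_, rfl⟩
  obtain ⟨Es, hEs⟩ : ∃ Es : DirichletCharacter ℂ (p ^ m) → ℂ, Es = fun θ => (AA (ψ θ) G t +
      γ * (gaussSum (ψ θ) ZMod.stdAddChar / (Real.sqrt q : ℂ)) *
      (starRingEnd ℂ) (AA (ψ θ) G t)) := ⟨_, rfl⟩
  obtain ⟨s, hs⟩ : ∃ s : Finset (DirichletCharacter ℂ (p ^ m)), s = univ.filter
    (fun θ => (ψ θ).Even) := ⟨_, rfl⟩
  have hsq : 16 ≤ q ^ (1 / 2 : ℝ) := by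
    have : (16 : ℝ) = 256 ^ (1 / 2 : ℝ) := by
      rw [← Real.sqrt_eq_rpow, show (256 : ℝ) = 16 ^ 2 by norm_num, Real.sqrt_sq (by norm_num)]
    rw [this]
    exact Real.rpow_le_rpow (by norm_num) hq256' (by norm_num)
  have hMn : ∀ θ, ‖Ms θ‖ ≤ q / 16 := by
    intro θ
    rw [hMs]
    refine (MM_le hq1 (ψ θ) hκ0 t).trans ?_
    rw [← hq]
    have h4 : q ^ κ ≤ q ^ (1 / 2 : ℝ) := Real.rpow_le_rpow_of_exponent_le (by linarith) (by linarith)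
    have h5 : q = q ^ (1 / 2 : ℝ) * q ^ (1 / 2 : ℝ) := by
      rw [← Real.rpow_add hq0]; norm_num
    have h6 : 0 < q ^ (1 / 2 : ℝ) := by positivity
    rw [le_div_iff₀ (by norm_num)]
    calc q ^ κ * 16 ≤ q ^ (1 / 2 : ℝ) * q ^ (1 / 2 : ℝ) := by gcongr
      _ = q := h5.symm
  have hdiff : ∀ θ ∈ s, ‖(Ls θ - Es θ) * Ms θ‖ ≤ 1 / 16 := by
    intro θ hθ
    rw [hs, mem_filter] at hθ
    have h4 := hL (ψ θ) (hprim θ) hθ.2
    rw [norm_mul]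
    have h5 : ‖Ls θ - Es θ‖ ≤ 1 / q := by rw [hLs, hEs]; exact h4
    calc _ ≤ 1 / q * (q / 16) := mul_le_mul h5 (hMn θ) (norm_nonneg _) (by positivity)
      _ = 1 / 16 := by field_simp
  have hscard : (s.card : ℝ) ≤ (p : ℝ) ^ m := by
    refine le_trans ?_ (card_char m)
    rw [hs]
    exact_mod_cast card_le_univ _
  have hpm : (0 : ℝ) < (p : ℝ) ^ m := by positivity
  have hfirst : (p : ℝ) ^ m / 16 ≤ ‖∑ θ ∈ s, Ls θ * Ms θ‖ := by
    have e1 : ∑ θ ∈ s, Es θ * Ms θ = ∑ θ ∈ s, Ls θ * Ms θ - ∑ θ ∈ s, (Ls θ - Es θ) * Ms θ := by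
      rw [← sum_sub_distrib]
      exact sum_congr rfl fun θ _ => by ring
    have e2 : ‖∑ θ ∈ s, (Ls θ - Es θ) * Ms θ‖ ≤ (p : ℝ) ^ m / 16 := by
      calc _ ≤ ∑ θ ∈ s, ‖(Ls θ - Es θ) * Ms θ‖ := norm_sum_le _ _
        _ ≤ ∑ θ ∈ s, (1 / 16 : ℝ) := sum_le_sum hdiff
        _ = s.card * (1 / 16) := by rw [sum_const, nsmul_eq_mul]
        _ ≤ (p : ℝ) ^ m * (1 / 16) := by gcongr
        _ = _ := by ring
    have e3 : (p : ℝ) ^ m / 8 ≤ ‖∑ θ ∈ s, Es θ * Ms θ‖ := by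
      rw [hs, hEs, hMs]
      exact hf2
    have e4 : ‖∑ θ ∈ s, Es θ * Ms θ‖ ≤ ‖∑ θ ∈ s, Ls θ * Ms θ‖ + ‖∑ θ ∈ s, (Ls θ - Es θ) * Ms θ‖ := by
      rw [e1]; exact norm_sub_le _ _
    linarith
  have hEn : ∀ θ, ‖Es θ‖ ≤ 2 * ‖As θ‖ := by
    intro θ
    rw [hEs, hAs]
    have h4 : ‖gaussSum (ψ θ) (ZMod.stdAddChar : AddChar (ZMod (p ^ ν)) ℂ) / (Real.sqrt q : ℂ)‖ = 1 := by
      have h5 := Pool.Agent.Helper112.MLS.norm_gauss (p ^ ν) (hprim θ)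
      rw [← hq] at h5
      rw [norm_div, Complex.norm_real, Real.norm_eq_abs, abs_of_nonneg (Real.sqrt_nonneg _), ← h5,
        Real.sqrt_sq (norm_nonneg _)]
      refine div_self ?_
      intro h6
      rw [h6] at h5
      norm_num at h5
      linarith
    calc _ ≤ ‖AA (ψ θ) G t‖ + ‖γ * (gaussSum (ψ θ) ZMod.stdAddChar / (Real.sqrt q : ℂ)) *
      (starRingEnd ℂ) (AA (ψ θ) G t)‖ := norm_add_le _ _
      _ = 2 * ‖AA (ψ θ) G t‖ := by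
          rw [norm_mul, norm_mul, hγ, h4, Complex.norm_conj]
          ring
  have hsecond : ∑ θ ∈ s, ‖Ls θ * Ms θ‖ ^ 2 ≤ S * (p : ℝ) ^ m := by
    have e1 : ∀ θ ∈ s, ‖Ls θ * Ms θ‖ ^ 2 ≤ 8 * ‖As θ * Ms θ‖ ^ 2 + 2 := by
      intro θ hθ
      have e2 : ‖Ls θ * Ms θ‖ ≤ 2 * ‖As θ * Ms θ‖ + 1 := by
        have e3 : Ls θ * Ms θ = Es θ * Ms θ + (Ls θ - Es θ) * Ms θ := by ring
        rw [e3]
        refine (norm_add_le _ _).trans ?_
        have e4 := hdiff θ hθ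
        have e5 : ‖Es θ * Ms θ‖ ≤ 2 * ‖As θ * Ms θ‖ := by
          rw [norm_mul, norm_mul, ← mul_assoc]
          exact mul_le_mul_of_nonneg_right (hEn θ) (norm_nonneg _)
        linarith
      have e6 : 0 ≤ ‖Ls θ * Ms θ‖ := norm_nonneg _
      have e7 : 0 ≤ ‖As θ * Ms θ‖ := norm_nonneg _
      calc _ ≤ (2 * ‖As θ * Ms θ‖ + 1) ^ 2 := pow_le_pow_left₀ e6 e2 2
        _ ≤ _ := by nlinarith [sq_nonneg (2 * ‖As θ * Ms θ‖ - 1)]
    calc _ ≤ ∑ θ ∈ s, (8 * ‖As θ * Ms θ‖ ^ 2 + 2) := sum_le_sum e1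
      _ = 8 * ∑ θ ∈ s, ‖As θ * Ms θ‖ ^ 2 + s.card * 2 := by
          rw [sum_add_distrib, ← mul_sum, sum_const, nsmul_eq_mul]
      _ ≤ 8 * (C1 * C2 ^ 2 * (p : ℝ) ^ m) + (p : ℝ) ^ m * 2 := by
          have e8 : ∑ θ ∈ s, ‖As θ * Ms θ‖ ^ 2 ≤ C1 * C2 ^ 2 * (p : ℝ) ^ m := by
            refine le_trans ?_ hm2
            rw [hAs, hMs]
            exact sum_le_sum_of_subset_of_nonneg (subset_univ _) fun _ _ _ => by positivity
          gcongr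
      _ = _ := by rw [hS]; ring
  have key := cs_count s (fun θ => Ls θ ≠ 0) Ls Ms (fun θ _ h => not_not.1 h) (by positivity)
    hfirst hsecond
  have hle : ((s.filter (fun θ => Ls θ ≠ 0)).card : ℝ) ≤ ((univ.filter (fun θ => Ls θ ≠ 0)).card : ℝ) := by
    exact_mod_cast card_le_card (filter_subset_filter _ (subset_univ _))
  have hfin : 1 / (256 * S) * (p : ℝ) ^ m ≤ ((univ.filter (fun θ => Ls θ ≠ 0)).card : ℝ) := by
    refine le_trans ?_ hle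
    rw [div_mul_eq_mul_div, one_mul, div_le_iff₀ (by positivity)]
    have e9 : ((p : ℝ) ^ m / 16) ^ 2 = (p : ℝ) ^ m * ((p : ℝ) ^ m / 256) := by ring
    rw [e9] at key
    have e10 : (p : ℝ) ^ m * ((p : ℝ) ^ m / 256) ≤
        (p : ℝ) ^ m * (((s.filter (fun θ => Ls θ ≠ 0)).card : ℝ) * S) := by
      refine key.trans (le_of_eq ?_)
      ring
    have e11 := le_of_mul_le_mul_left e10 hpm
    linarith
  rw [hLs] at hfin
  exact hfin

lemma card_char_eq {p : ℕ} [Fact p.Prime] {m : ℕ} (hm : 1 ≤ m) :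
    (Fintype.card (DirichletCharacter ℂ (p ^ m)) : ℝ) = (p : ℝ) ^ (m - 1) * (p - 1) := by
  have hp : p.Prime := Fact.out
  haveI : NeZero (p ^ m) := ⟨pow_ne_zero _ hp.ne_zero⟩
  have e1 := DirichletCharacter.card_eq_totient_of_hasEnoughRootsOfUnity ℂ (p ^ m)
  rw [← Nat.card_eq_fintype_card, e1, Nat.totient_prime_pow hp (by omega)]
  have := hp.one_le
  push_cast [Nat.cast_sub this]
  ring

open Classical in
theorem pos (h1 : S_MSA) (h2 : S_AFW) (h3 : S_FMO) : S_POS := by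
  intro δ t hδ
  obtain ⟨δ', hδ'⟩ : ∃ δ' : ℝ, δ' = min δ (1 / 20) := ⟨_, rfl⟩
  have hδ0 : 0 < δ' := by rw [hδ']; positivity
  have hδ1 : δ' ≤ δ := by rw [hδ']; exact min_le_left _ _
  have hδ2 : δ' ≤ 1 / 20 := by rw [hδ']; exact min_le_right _ _
  obtain ⟨c, hc, h⟩ := pos_half h1 h2 h3 δ' t hδ0
  refine ⟨c, hc, ?_⟩
  intro p hpf hp7
  have hp : p.Prime := hpf.out
  have hp0 : (0 : ℝ) < p := by exact_mod_cast hp.pos
  have hp1 : (1 : ℝ) < p := by exact_mod_cast hp.one_lt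
  obtain ⟨ν₁, h⟩ := h p hp7
  refine ⟨max ν₁ 10, ?_⟩
  intro ν m hmν hν h19 χ hχ
  have hν1 : ν₁ ≤ ν := le_trans (le_max_left _ _) hν
  have hν2 : 10 ≤ ν := le_trans (le_max_right _ _) hν
  have hνr : (10 : ℝ) ≤ ν := by exact_mod_cast hν2
  rcases le_or_gt (2 * m) ν with h2m | h2m
  · exact h ν m hmν hν1 (by nlinarith) h2m χ hχ
  obtain ⟨m', hm'⟩ : ∃ m' : ℕ, m' = ν / 2 := ⟨_, rfl⟩
  have hm'1 : 1 ≤ m' := by omega
  have hm'm : m' < m := by omega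
  have hm'ν : m' < ν := by omega
  have h19' : (19 / 58 + δ') * ν ≤ m' := by
    have h4 : (ν : ℝ) ≤ 2 * m' + 1 := by exact_mod_cast (by omega : ν ≤ 2 * m' + 1)
    nlinarith
  haveI : NeZero p := ⟨hp.ne_zero⟩
  haveI : NeZero (p ^ m) := ⟨pow_ne_zero _ hp.ne_zero⟩
  haveI : NeZero (p ^ m') := ⟨pow_ne_zero _ hp.ne_zero⟩
  haveI : NeZero (p ^ ν) := ⟨pow_ne_zero _ hp.ne_zero⟩
  obtain ⟨P, hP⟩ : ∃ P : DirichletCharacter ℂ (p ^ ν) → Prop, P = fun ψ =>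
    ψ.LFunction (1 / 2 + (t : ℂ) * Complex.I) ≠ 0 := ⟨_, rfl⟩
  have key : ∀ θ : DirichletCharacter ℂ (p ^ m), c * (p : ℝ) ^ m' ≤
      ∑ θ' : DirichletCharacter ℂ (p ^ m'),
        (if P (χ * DirichletCharacter.changeLevel (pow_dvd_pow p hmν.le) θ *
          DirichletCharacter.changeLevel (pow_dvd_pow p hm'ν.le) θ') then (1 : ℝ) else 0) := by
    intro θ
    have h4 := h ν m' hm'ν hν1 h19' (by omega) (χ * DirichletCharacter.changeLevel (pow_dvd_pow p hmν.le) θ)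
      (prim_mul hp hmν hχ θ)
    rw [sum_boole, hP]
    refine h4.trans (le_of_eq ?_)
    congr!
  have hsum : ∑ θ : DirichletCharacter ℂ (p ^ m), ∑ θ' : DirichletCharacter ℂ (p ^ m'),
        (if P (χ * DirichletCharacter.changeLevel (pow_dvd_pow p hmν.le) θ *
          DirichletCharacter.changeLevel (pow_dvd_pow p hm'ν.le) θ') then (1 : ℝ) else 0) =
      (Fintype.card (DirichletCharacter ℂ (p ^ m')) : ℝ) *
        ∑ θ : DirichletCharacter ℂ (p ^ m),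
        (if P (χ * DirichletCharacter.changeLevel (pow_dvd_pow p hmν.le) θ) then (1 : ℝ) else 0) := by
    rw [sum_comm]
    have h5 : ∀ θ' : DirichletCharacter ℂ (p ^ m'), ∑ θ : DirichletCharacter ℂ (p ^ m),
        (if P (χ * DirichletCharacter.changeLevel (pow_dvd_pow p hmν.le) θ *
          DirichletCharacter.changeLevel (pow_dvd_pow p hm'ν.le) θ') then (1 : ℝ) else 0) =
        ∑ θ : DirichletCharacter ℂ (p ^ m),
        (if P (χ * DirichletCharacter.changeLevel (pow_dvd_pow p hmν.le) θ) then (1 : ℝ) else 0) := by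
      intro θ'
      rw [← Equiv.sum_comp (Equiv.mulRight
        (DirichletCharacter.changeLevel (pow_dvd_pow p hm'm.le) θ'))
        (fun θ => if P (χ * DirichletCharacter.changeLevel (pow_dvd_pow p hmν.le) θ) then (1 : ℝ) else 0)]
      refine sum_congr rfl fun θ _ => ?_
      have e1 : DirichletCharacter.changeLevel (pow_dvd_pow p hm'ν.le) θ' =
          DirichletCharacter.changeLevel (pow_dvd_pow p hmν.le)
            (DirichletCharacter.changeLevel (pow_dvd_pow p hm'm.le) θ') :=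
        DirichletCharacter.changeLevel_trans θ' _ _
      rw [Equiv.coe_mulRight, map_mul, e1, mul_assoc]
    rw [sum_congr rfl fun θ' _ => h5 θ', sum_const, card_univ, nsmul_eq_mul]
  have h6 : (Fintype.card (DirichletCharacter ℂ (p ^ m)) : ℝ) * (c * (p : ℝ) ^ m') ≤
      (Fintype.card (DirichletCharacter ℂ (p ^ m')) : ℝ) *
        ∑ θ : DirichletCharacter ℂ (p ^ m),
        (if P (χ * DirichletCharacter.changeLevel (pow_dvd_pow p hmν.le) θ) then (1 : ℝ) else 0) := by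
    rw [← hsum, ← nsmul_eq_mul, ← card_univ, ← sum_const]
    exact sum_le_sum fun θ _ => key θ
  rw [card_char_eq (by omega : 1 ≤ m), card_char_eq hm'1, sum_boole, hP] at h6
  have h7 : (p : ℝ) ^ (m - 1) * (p - 1) * (c * (p : ℝ) ^ m') =
      (p : ℝ) ^ (m' - 1) * (p - 1) * (c * (p : ℝ) ^ m) := by
    have e1 : (p : ℝ) ^ m = (p : ℝ) ^ (m - 1) * p := by rw [← pow_succ]; congr 1; omega
    have e2 : (p : ℝ) ^ m' = (p : ℝ) ^ (m' - 1) * p := by rw [← pow_succ]; congr 1; omega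
    rw [e1, e2]; ring
  rw [h7] at h6
  have h8 := le_of_mul_le_mul_left h6 (by
    have : (0 : ℝ) < p - 1 := by linarith
    positivity)
  refine h8.trans (le_of_eq ?_)
  congr!

end Pool.Agent.Y766.R10
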